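import Mathlib

/-!
# Families of graphs with r-edge-connected pairwise intersections
-/

set_option autoImplicit false

namespace Pool.Agent.Lib.EC78

open Finset

/-- the largest number of subsets of an `N`-set, any two of which agree in at least `r` points
(that is, have a symmetric difference with at most `N - r` elements) -/
noncomputable def diametric (N r : ℕ) : ℕ := by
  classical
  exact ((Finset.univ : Finset (Finset (Finset (Fin N)))).filter
    (fun 𝒜 => ∀ A ∈ 𝒜, ∀ B ∈ 𝒜, (symmDiff A B).card + r ≤ N)).sup Finset.card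

theorem le_diametric {N r : ℕ} (𝒜 : Finset (Finset (Fin N)))
    (h : ∀ A ∈ 𝒜, ∀ B ∈ 𝒜, (symmDiff A B).card + r ≤ N) : 𝒜.card ≤ diametric N r := by
  classical
  exact Finset.le_sup (f := Finset.card) (Finset.mem_filter.2 ⟨Finset.mem_univ _, h⟩)

theorem card_graph (m : ℕ) (s : Finset (SimpleGraph (Fin m))) : s.card ≤ 2 ^ m.choose 2 := by
  classical
  have h : s.card ≤ (Finset.univ : Finset (Finset {e : Sym2 (Fin m) // ¬ e.IsDiag})).card := by
    refine Finset.card_le_card_of_injOn (fun G => Finset.univ.filter (fun e => e.1 ∈ G.edgeSet))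
      (fun _ _ => Finset.mem_coe.2 (Finset.mem_univ _)) ?_
    intro G _ G' _ h
    apply SimpleGraph.edgeSet_injective
    ext e
    by_cases he : e.IsDiag
    · exact ⟨fun h1 => absurd he (G.not_isDiag_of_mem_edgeSet h1),
        fun h1 => absurd he (G'.not_isDiag_of_mem_edgeSet h1)⟩
    · have h2 := congrArg (fun t => (⟨e, he⟩ : {e : Sym2 (Fin m) // ¬ e.IsDiag}) ∈ t) h
      simpa using h2
  refine h.trans (le_of_eq ?_)
  rw [Finset.card_univ, Fintype.card_finset, Sym2.card_subtype_not_diag, Fintype.card_fin]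

section
variable {m : ℕ}

/-- the switched graph -/
def rep (G : SimpleGraph (Fin (m + 2))) : SimpleGraph (Fin m) where
  Adj p q := p ≠ q ∧ (G.Adj p.succ.succ q.succ.succ ↔
    (G.Adj 1 p.succ.succ ↔ G.Adj 1 q.succ.succ))
  symm := ⟨by
    rintro p q ⟨h1, h2⟩
    refine ⟨h1.symm, ?_⟩
    rw [G.adj_comm q.succ.succ p.succ.succ]
    exact h2.trans iff_comm⟩
  loopless := ⟨fun p h => h.1 rfl⟩

/-- the switched neighbourhood -/
noncomputable def nbh (G : SimpleGraph (Fin (m + 2))) : Finset (Fin (m + 1)) := by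
  classical
  exact Finset.univ.filter (fun i => ¬ (G.Adj 0 i.succ ↔ G.Adj 1 i.succ))

theorem mem_nbh (G : SimpleGraph (Fin (m + 2))) (i : Fin (m + 1)) :
    i ∈ nbh G ↔ ¬ (G.Adj 0 i.succ ↔ G.Adj 1 i.succ) := by
  classical
  simp [nbh]

/-- if the switched graphs agree, `G` and `G'` differ by a cut -/
theorem cut_of_rep {G G' : SimpleGraph (Fin (m + 2))} (h : rep G = rep G') (i j : Fin (m + 1))
    (hij : i ≠ j) : (G.Adj i.succ j.succ ↔ G'.Adj i.succ j.succ) ↔
      ((G.Adj 1 i.succ ↔ G'.Adj 1 i.succ) ↔ (G.Adj 1 j.succ ↔ G'.Adj 1 j.succ)) := by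
  have h1 : (0 : Fin (m + 1)).succ = (1 : Fin (m + 2)) := rfl
  induction i using Fin.cases with
  | zero =>
    rw [h1]
    have h2 := G.loopless.irrefl (1 : Fin (m + 2))
    have h3 := G'.loopless.irrefl (1 : Fin (m + 2))
    tauto
  | succ p =>
    induction j using Fin.cases with
    | zero =>
      rw [h1, G.adj_comm _ 1, G'.adj_comm _ 1]
      have h2 := G.loopless.irrefl (1 : Fin (m + 2))
      have h3 := G'.loopless.irrefl (1 : Fin (m + 2))
      tauto
    | succ q =>
      have hpq : p ≠ q := fun h => hij (by rw [h])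
      have h4 : (rep G).Adj p q ↔ (rep G').Adj p q := by rw [h]
      simp only [rep, ne_eq, hpq, not_false_eq_true, true_and] at h4
      tauto

/-- a set of vertices whose boundary consists of the edges in `s` -/
theorem not_reach {V : Type*} (K : SimpleGraph V) (s : Set (Sym2 V)) (X : Set V)
    (h : ∀ a ∈ X, ∀ b ∉ X, K.Adj a b → s(a, b) ∈ s) {u w : V} (hu : u ∈ X) (hw : w ∉ X) :
    ¬ (K.deleteEdges s).Reachable u w := by
  rintro ⟨p⟩
  induction p with
  | nil => exact hw hu
  | @cons a b c hab p ih =>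
    rw [SimpleGraph.deleteEdges_adj] at hab
    by_cases hb : b ∈ X
    · exact ih hb hw
    · exact hab.2 (h a hu b hb hab.1)

theorem main_pair {r : ℕ} {G G' : SimpleGraph (Fin (m + 2))} (hrep : rep G = rep G')
    (hc : (G ⊓ G').IsEdgeConnected r) : (symmDiff (nbh G) (nbh G')).card + r ≤ m + 1 := by
  classical
  -- the agreement set
  set T : Finset (Fin (m + 1)) := Finset.univ.filter (fun i => G.Adj 0 i.succ ∧ G'.Adj 0 i.succ ∧
    (G.Adj 1 i.succ ↔ G'.Adj 1 i.succ)) with hT
  have h1 : r ≤ T.card := by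
    by_contra hlt
    push Not at hlt
    set s : Set (Sym2 (Fin (m + 2))) := (↑(T.image (fun i => s(i.succ, (0 : Fin (m + 2))))) :
      Set (Sym2 (Fin (m + 2)))) with hs
    have h2 : s.encard < r := by
      rw [hs, Set.encard_coe_eq_coe_finsetCard]
      exact_mod_cast (Finset.card_image_le).trans_lt hlt
    have h3 := hc 1 0 h2
    refine not_reach (G ⊓ G') s {x | ∃ i : Fin (m + 1), x = i.succ ∧
      (G.Adj 1 i.succ ↔ G'.Adj 1 i.succ)} ?_ ⟨0, rfl, ?_⟩ ?_ h3
    · rintro a ⟨i, rfl, hi⟩ b hb hab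
      have hab1 : G.Adj i.succ b := hab.1
      have hab2 : G'.Adj i.succ b := hab.2
      induction b using Fin.cases with
      | zero =>
        rw [hs]
        refine Finset.mem_coe.2 (Finset.mem_image.2 ⟨i, ?_, rfl⟩)
        rw [hT, Finset.mem_filter]
        exact ⟨Finset.mem_univ _, hab1.symm, hab2.symm, hi⟩
      | succ j =>
        exfalso
        have hij : i ≠ j := fun h => by rw [h] at hab1; exact G.loopless.irrefl _ hab1
        have hj : ¬ (G.Adj 1 j.succ ↔ G'.Adj 1 j.succ) := fun h => hb ⟨j, rfl, h⟩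
        have h5 := cut_of_rep hrep i j hij
        tauto
    · exact ⟨fun h => absurd h (G.loopless.irrefl _), fun h => absurd h (G'.loopless.irrefl _)⟩
    · rintro ⟨i, hi, -⟩
      exact Fin.succ_ne_zero i hi.symm
  have h2 : Disjoint (symmDiff (nbh G) (nbh G')) T := by
    rw [Finset.disjoint_left]
    intro i hi hiT
    rw [hT, Finset.mem_filter] at hiT
    rw [Finset.mem_symmDiff, mem_nbh, mem_nbh] at hi
    tauto
  have h3 := Finset.card_union_of_disjoint h2
  have h4 := Finset.card_le_univ (symmDiff (nbh G) (nbh G') ∪ T)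
  rw [Fintype.card_fin] at h4
  omega

theorem inj_pair {r : ℕ} (hr : 1 ≤ r) {G G' : SimpleGraph (Fin (m + 2))} (hrep : rep G = rep G')
    (hn : nbh G = nbh G') (hc : (G ⊓ G').IsEdgeConnected r) : G = G' := by
  classical
  have hU : ∀ i : Fin (m + 1), G.Adj 1 i.succ ↔ G'.Adj 1 i.succ := by
    by_contra hne
    push Not at hne
    obtain ⟨i0, hi0⟩ := hne
    have h3 : ((G ⊓ G').deleteEdges ∅).Reachable i0.succ 0 :=
      hc i0.succ 0 (by rw [Set.encard_empty]; exact_mod_cast hr)
    refine not_reach (G ⊓ G') ∅ {x | ∃ i : Fin (m + 1), x = i.succ ∧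
      ¬ (G.Adj 1 i.succ ↔ G'.Adj 1 i.succ)} ?_ ⟨i0, rfl, by tauto⟩ ?_ h3
    · rintro a ⟨i, rfl, hi⟩ b hb hab
      exfalso
      have hab1 : G.Adj i.succ b := hab.1
      have hab2 : G'.Adj i.succ b := hab.2
      induction b using Fin.cases with
      | zero =>
        have h5 : i ∈ nbh G ↔ i ∈ nbh G' := by rw [hn]
        rw [mem_nbh, mem_nbh] at h5
        have h6 := hab1.symm
        have h7 := hab2.symm
        tauto
      | succ j =>
        have hij : i ≠ j := fun h => by rw [h] at hab1; exact G.loopless.irrefl _ hab1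
        have hj : (G.Adj 1 j.succ ↔ G'.Adj 1 j.succ) := by
          by_contra h
          exact hb ⟨j, rfl, h⟩
        have h5 := cut_of_rep hrep i j hij
        tauto
    · rintro ⟨i, hi, -⟩
      exact Fin.succ_ne_zero i hi.symm
  have h0 : ∀ i : Fin (m + 1), G.Adj 0 i.succ ↔ G'.Adj 0 i.succ := by
    intro i
    have h5 : i ∈ nbh G ↔ i ∈ nbh G' := by rw [hn]
    rw [mem_nbh, mem_nbh] at h5
    have h6 := hU i
    tauto
  have h1 : ∀ i j : Fin (m + 1), i ≠ j → (G.Adj i.succ j.succ ↔ G'.Adj i.succ j.succ) := by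
    intro i j hij
    have h5 := cut_of_rep hrep i j hij
    have h6 := hU i
    have h7 := hU j
    tauto
  ext a b
  induction a using Fin.cases with
  | zero =>
    induction b using Fin.cases with
    | zero => exact ⟨fun h => absurd h (G.loopless.irrefl _), fun h => absurd h (G'.loopless.irrefl _)⟩
    | succ j => exact h0 j
  | succ i =>
    induction b using Fin.cases with
    | zero =>
      rw [G.adj_comm, G'.adj_comm]
      exact h0 i
    | succ j =>
      by_cases hij : i = j
      · subst hij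
        exact ⟨fun h => absurd h (G.loopless.irrefl _), fun h => absurd h (G'.loopless.irrefl _)⟩
      · exact h1 i j hij

theorem main_bound {r : ℕ} (hr : 1 ≤ r) (F : Finset (SimpleGraph (Fin (m + 2))))
    (hF : ∀ G ∈ F, ∀ G' ∈ F, (G ⊓ G').IsEdgeConnected r) :
    F.card ≤ 2 ^ m.choose 2 * diametric (m + 1) r := by
  classical
  have h1 : ∀ H ∈ F.image rep, (F.filter (fun G => rep G = H)).card ≤ diametric (m + 1) r := by
    intro H _
    have h2 : (F.filter (fun G => rep G = H)).card =
        ((F.filter (fun G => rep G = H)).image nbh).card := by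
      rw [Finset.card_image_of_injOn]
      intro G hG G' hG' h
      have hG1 := Finset.mem_filter.1 (Finset.mem_coe.1 hG)
      have hG2 := Finset.mem_filter.1 (Finset.mem_coe.1 hG')
      exact inj_pair hr (hG1.2.trans hG2.2.symm) h (hF G hG1.1 G' hG2.1)
    rw [h2]
    apply le_diametric
    intro A hA B hB
    obtain ⟨G, hG, rfl⟩ := Finset.mem_image.1 hA
    obtain ⟨G', hG', rfl⟩ := Finset.mem_image.1 hB
    rw [Finset.mem_filter] at hG hG'
    exact main_pair (hG.2.trans hG'.2.symm) (hF G hG.1 G' hG'.1)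
  have h2 := Finset.card_le_mul_card_image F (f := rep) (diametric (m + 1) r) h1
  rw [Nat.mul_comm] at h2
  exact h2.trans (Nat.mul_le_mul_right _ (card_graph m _))

end

end Pool.Agent.Lib.EC78
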